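import Mathlib

set_option autoImplicit false

namespace Pool.Agent.Results.MP_0f31da_co.Cex

open SimpleGraph Finset

/-- Local independence number. -/
noncomputable def loc {V : Type} (G : SimpleGraph V) (v : V) : ℕ :=
  (G.induce (G.neighborSet v)).indepNum

/-- Largest order of an induced forest. -/
noncomputable def f {V : Type} (G : SimpleGraph V) : ℕ :=
  sSup {k | ∃ s : Finset V, (G.induce (s : Set V)).IsAcyclic ∧ #s = k}

/-- Largest order of an induced bipartite subgraph. -/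
noncomputable def b {V : Type} (G : SimpleGraph V) : ℕ :=
  sSup {k | ∃ s : Finset V, (G.induce (s : Set V)).IsBipartite ∧ #s = k}

def r (x y : Fin 26) : Bool := decide (x ≠ y) &&
  (if x.1 < 4 then (if y.1 < 4 then (x.1 + y.1) % 2 == 1 else decide (y.1 = 4 ∧ x.1 < 2))
    else decide (4 ≤ y.1 ∨ (x.1 = 4 ∧ y.1 < 2)))

def G : SimpleGraph (Fin 26) where
  Adj x y := r x y
  symm := ⟨by decide +kernel⟩
  loopless := ⟨by decide +kernel⟩

theorem h2 : ∀ v : Fin 26, 5 ≤ v.1 → ∀ x, r v x → ∀ y, r v y → x ≠ y → r x y := by decide +kernel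

theorem h3 : ∀ v : Fin 26, v.1 < 5 → ∀ x, r v x → ∀ y, r v y → x ≠ y → ¬ r x y →
    ∀ z, r v z → x ≠ z → y ≠ z → r x z ∨ r y z := by decide +kernel

theorem up (v : Fin 26) : loc G v ≤ if v.1 < 5 then 2 else 1 := by
  obtain ⟨s, hs, hc⟩ := (G.induce (G.neighborSet v)).exists_isNIndepSet_indepNum
  rw [loc, ← hc]
  by_contra h
  split_ifs at h with hv
  · obtain ⟨x, y, z, hx, hy, hz, xy, xz, yz⟩ := two_lt_card_iff.1 (not_le.1 h)
    rcases h3 v hv x x.2 y y.2 (Subtype.val_injective.ne xy) (hs hx hy xy) z z.2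
      (Subtype.val_injective.ne xz) (Subtype.val_injective.ne yz) with h | h
    · exact hs hx hz xz h
    · exact hs hy hz yz h
  · obtain ⟨x, y, hx, hy, xy⟩ := one_lt_card_iff.1 (not_le.1 h)
    exact hs hx hy xy (h2 v (not_lt.1 hv) x x.2 y y.2 (Subtype.val_injective.ne xy))

theorem hb : 6 ≤ b G := by
  refine le_csSup ⟨26, ?_⟩ ⟨{0, 1, 2, 3, 5, 6}, ⟨Coloring.mk (fun x => ⟨x.1.1 % 2, by omega⟩) ?_⟩, rfl⟩
  · rintro _ ⟨s, -, rfl⟩
    exact (card_le_univ s).trans_eq (Fintype.card_fin _)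
  · have : ∀ x ∈ ({0, 1, 2, 3, 5, 6} : Finset (Fin 26)), ∀ y ∈ ({0, 1, 2, 3, 5, 6} : Finset (Fin 26)),
        r x y → x.1 % 2 ≠ y.1 % 2 := by decide +kernel
    exact fun {x y} h e => this x x.2 y y.2 h (congrArg Fin.val e)

theorem hf : f G ≤ 5 := by
  refine csSup_le' ?_
  rintro _ ⟨s, hs, rfl⟩
  have a : #{x ∈ s | ¬ x.1 < 4} ≤ 2 := by
    by_contra h
    obtain ⟨x, y, z, hx, hy, hz, xy, xz, yz⟩ := two_lt_card_iff.1 (not_le.1 h)
    have k : ∀ x y : Fin 26, ¬ x.1 < 4 → ¬ y.1 < 4 → x ≠ y → r x y := by decide +kernel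
    rw [mem_filter] at hx hy hz
    refine hs.cliqueFree (n := 3) le_rfl {⟨x, hx.1⟩, ⟨y, hy.1⟩, ⟨z, hz.1⟩} ?_
    exact is3Clique_triple_iff.2 ⟨k x y hx.2 hy.2 xy, k x z hx.2 hz.2 xz, k y z hy.2 hz.2 yz⟩
  have c : #{x ∈ s | x.1 < 4} ≤ 3 := by
    by_contra h
    have e : {x ∈ s | x.1 < 4} = {0, 1, 2, 3} := eq_of_subset_of_card_le (fun x hx =>
      (by decide +kernel : ∀ x : Fin 26, x.1 < 4 → x ∈ ({0, 1, 2, 3} : Finset (Fin 26))) x
        (mem_filter.1 hx).2) (not_le.1 h)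
    have m : ∀ x ∈ ({0, 1, 2, 3} : Finset (Fin 26)), x ∈ s := fun x hx =>
      (mem_filter.1 (e.ge hx)).1
    let x0 : (s : Set (Fin 26)) := ⟨0, m 0 (by decide)⟩
    let x1 : (s : Set (Fin 26)) := ⟨1, m 1 (by decide)⟩
    let x2 : (s : Set (Fin 26)) := ⟨2, m 2 (by decide)⟩
    let x3 : (s : Set (Fin 26)) := ⟨3, m 3 (by decide)⟩
    have p := (hs.subsingleton_path x0 x2).elim
      ⟨.cons (v := x1) (rfl : r 0 1 = true) (.cons (v := x2) (rfl : r 1 2 = true) .nil),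
        by simp [x0, x1, x2]⟩
      ⟨.cons (v := x3) (rfl : r 0 3 = true) (.cons (v := x2) (rfl : r 3 2 = true) .nil),
        by simp [x0, x3, x2]⟩
    have := congrArg (fun q => q.1.support) p
    simp [x1, x3] at this
  have := card_filter_add_card_filter_not (s := s) fun x => x.1 < 4
  omega

theorem result : ¬ ∀ (n : ℕ) (G : SimpleGraph (Fin n)), 2 ≤ n → G.Connected →
    ⌈(b G : ℚ) / ((∑ v, (loc G v : ℚ)) / n)⌉ ≤ f G := by
  intro h
  have hc : G.Connected := by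
    have h1 : ∀ a : Fin 26, a = 4 ∨ r a 4 ∨ r a 0 ∨ r a 1 := by decide +kernel
    have h2 : ∀ a, G.Reachable a 4 := fun a => by
      rcases h1 a with rfl | h | h | h
      · rfl
      · exact Adj.reachable h
      · exact (Adj.reachable h).trans (Adj.reachable (rfl : r 0 4 = true))
      · exact (Adj.reachable h).trans (Adj.reachable (rfl : r 1 4 = true))
    exact ⟨fun a b => (h2 a).trans (h2 b).symm⟩
  have := Int.ceil_le.1 (h 26 G (by norm_num) hc)
  have s : ∑ v, loc G v ≤ 31 := (sum_le_sum fun v _ => up v).trans (by decide +kernel)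
  have s0 : 1 ≤ ∑ v, loc G v := by
    refine le_trans ?_ (single_le_sum (fun _ _ => Nat.zero_le _) (mem_univ 0))
    exact IsIndepSet.card_le_indepNum (t := {⟨1, (rfl : r 0 1 = true)⟩}) (by simp)
  have s1 : (6 : ℚ) ≤ b G := by exact_mod_cast hb
  have s2 : (f G : ℚ) ≤ 5 := by exact_mod_cast hf
  have s3 : (∑ v, (loc G v : ℚ)) ≤ 31 := by exact_mod_cast s
  have s4 : 1 ≤ (∑ v, (loc G v : ℚ)) := by exact_mod_cast s0
  rw [div_le_iff₀ (by positivity)] at this
  push_cast at this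
  nlinarith

end Pool.Agent.Results.MP_0f31da_co.Cex
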